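import Pool.Agent.H29.DPV.Sta
import Pool.Agent.H29.DPV.Stb

/-!
# DPV: the linear system has only the zero solution, all exponents
-/

set_option autoImplicit false

namespace Pool.DPC

open Polynomial Complex

/-- CORV -/
def CORVStmt : Prop :=
  ∀ (S : Set ℕ) (n d : ℕ) (W : Ch → ℂ) (R : Nat.Primes → ℂ → ℂ) (c : Nat.Primes → ℂ),
    RichC S c → 1 < n → Lim d R → Exp1 d R c → EqYT S n W R → ∀ φ : Ch, Tame n φ → W φ = 0

theorem t_CORV (hI : IDXTStmt) (hQ : QSMStmt) (hMID : MIDTStmt) (hDIR : DIRTStmt)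
    (hAUX : AUXStmt) (hORT : ORTTStmt) (hEVP : EVPStmt) (h1s : BS1Stmt) (h2s : BS2Stmt)
    (hS : SUPStmt) : CORVStmt := by
  have hSUP := hS
  obtain ⟨-, -, -, -, ht1, -, -, htord, -⟩ := hS
  intro T n d W R c hC hn1 hR hX hY
  have hT := hC.rich
  have hn : 0 < n := by omega
  obtain ⟨h1, h2⟩ := hI T n W R hn hY
  have hW1 : W 1 = 0 := h1s T n d W R hT hn1 hR h1 h2
  have key : ∀ m : ℕ, ∀ φ : Ch, Tame n φ → orderOf φ = m → W φ = 0 := by
    intro m
    induction m using Nat.strong_induction_on with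
    | _ m ih =>
      intro φ hφ hm
      have hIH : IH n W (orderOf φ) := fun ψ hψ hlt => ih (orderOf ψ) (hm ▸ hlt) ψ hψ rfl
      have hm0 : 0 < orderOf φ := (htord n φ hn hφ).1
      rcases lt_or_ge 2 (orderOf φ) with h | h
      · obtain ⟨q, hq, hq1, hq2⟩ := hQ φ hφ.fin h
        by_cases hqq : (q : ℕ) ^ 2 ∣ orderOf φ
        · exact t_STCV hMID hDIR hAUX hORT hEVP hSUP hC hn hR hX h1 h2 φ q hφ hqq hq1 hIH
        · have hqn2 : (q : ℕ) ≠ 2 := hq2.resolve_left hqq
          refine t_STBV hMID hDIR hAUX hORT hEVP hSUP hC hn hR hX h1 h2 φ q hφ hq hq1 hIH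
            fun ψ hψ hord hψ1 hTw => ?_
          exact t_STAV hMID hDIR hAUX hORT hEVP hSUP hC hn hR hX h1 h2 ψ q hψ hqn2
            (by rw [hord]; exact hq) hψ1 (by rw [hord]; exact hIH) hTw
      · have hcase : orderOf φ = 1 ∨ orderOf φ = 2 := by omega
        rcases hcase with h3 | h3
        · have h5 : φ = 1 := orderOf_eq_one_iff.1 h3
          rw [h5]
          exact hW1
        · exact h2s T n d W R hT hn1 hR h1 h2 hW1 φ hφ h3
  intro φ hφ
  exact key _ φ hφ rfl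

end Pool.DPC
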