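import Pool.Agent.H29.DPT.Gdl

/-!
# DPV: all exponents (with helper94), definitions
-/

set_option autoImplicit false

namespace Pool.DPC

open Polynomial Complex

/-- the factors of the added primes up to the first order -/
def Exp1 (d : ℕ) (R : Nat.Primes → ℂ → ℂ) (c : Nat.Primes → ℂ) : Prop :=
  ∃ K : ℝ, ∀ l : Nat.Primes, ∀ t : ℂ, ‖t‖ = 1 →
    ‖R l t - (-1) ^ d * (t⁻¹) ^ d * (1 + c l * t / ((l : ℕ) : ℂ))‖ ≤ K / (l : ℕ)

/-- large first coefficients in every reduced class -/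
def RichC (S : Set ℕ) (c : Nat.Primes → ℂ) : Prop :=
  ∀ T : ℝ, Rich {p | p ∈ S ∧ ∃ h : p.Prime, T < ‖c ⟨p, h⟩‖}

theorem RichC.rich {S : Set ℕ} {c : Nat.Primes → ℂ} (h : RichC S c) : Rich S := by
  intro M a hM ha B
  obtain ⟨p, ⟨hp, -⟩, h1, h2, h3⟩ := h 0 M a hM ha B
  exact ⟨p, hp, h1, h2, h3⟩

end Pool.DPC
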