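import Pool.Agent.H29.DPV.Defs
import Pool.Agent.H26.DPC.LIM

/-!
# DPV: the first order expansion from the Weil bound
-/

set_option autoImplicit false

namespace Pool.DPC

open Polynomial Complex

namespace EXP

theorem prod_bound2 {δ : ℝ} (hδ : 0 ≤ δ) (s : Multiset ℂ) : (∀ z ∈ s, ‖z‖ ≤ δ) →
    ‖(s.map fun z => 1 - z).prod - 1 + s.sum‖ ≤
      (1 + δ) ^ Multiset.card s - 1 - Multiset.card s * δ := by
  induction s using Multiset.induction with
  | empty => simp
  | cons z s ih =>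
    intro h
    have h1 := ih fun w hw => h w (Multiset.mem_cons_of_mem hw)
    have h2 := (LIM.prod_bound hδ s fun w hw => h w (Multiset.mem_cons_of_mem hw)).1
    have hz := h z (Multiset.mem_cons_self z s)
    rw [Multiset.map_cons, Multiset.prod_cons, Multiset.card_cons, Multiset.sum_cons, pow_succ]
    set Q := (s.map fun z => 1 - z).prod
    set e := (1 + δ) ^ Multiset.card s
    have h3 : (1 - z) * Q - 1 + (z + s.sum) = (Q - 1 + s.sum) - z * (Q - 1) := by ring
    rw [h3]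
    refine (norm_sub_le _ _).trans ?_
    rw [norm_mul]
    have h4 : ‖z‖ * ‖Q - 1‖ ≤ δ * (e - 1) := mul_le_mul hz h2 (norm_nonneg _) hδ
    push_cast
    linarith

theorem pow_bound {δ : ℝ} (h0 : 0 ≤ δ) (h1 : δ ≤ 1) (N : ℕ) :
    (1 + δ) ^ N - 1 - N * δ ≤ 2 ^ N * δ ^ 2 := by
  induction N with
  | zero => simp; positivity
  | succ N ih =>
    have h2 : (1 + δ) ^ N ≤ 2 ^ N := pow_le_pow_left₀ (by linarith) (by linarith) N
    have h3 : (1 + δ) ^ N - 1 ≤ 2 ^ N * δ := by
      clear ih h2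
      induction N with
      | zero => simp; exact h0
      | succ N ih =>
        have h2 : (1 + δ) ^ N ≤ 2 ^ N := pow_le_pow_left₀ (by linarith) (by linarith) N
        rw [pow_succ, pow_succ]
        nlinarith [mul_le_mul_of_nonneg_right h2 h0]
    rw [pow_succ, pow_succ]
    push_cast
    nlinarith [mul_le_mul_of_nonneg_right h3 h0]

/-- the polynomial as a product -/
theorem coeff_one {p : ℂ[X]} (h0 : p.coeff 0 = 1) :
    (p.roots.map fun r => 1 / r).sum = -p.coeff 1 := by
  obtain ⟨-, hr⟩ := LIM.eval_eq h0 0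
  have hp : p = ((p.roots.map fun r => 1 / r).map fun z => 1 - C z * X).prod := by
    refine Polynomial.funext fun x => ?_
    rw [(LIM.eval_eq h0 x).1, ← Polynomial.coe_evalRingHom, map_multiset_prod, Multiset.map_map,
      Multiset.map_map]
    refine congrArg Multiset.prod (Multiset.map_congr rfl fun r _ => ?_)
    simp only [Function.comp_apply, coe_evalRingHom, eval_sub, eval_one, eval_mul, eval_C, eval_X]
    ring
  have key : ∀ s : Multiset ℂ, ((s.map fun z => 1 - C z * X).prod : ℂ[X]).coeff 0 = 1 ∧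
      ((s.map fun z => 1 - C z * X).prod : ℂ[X]).coeff 1 = -s.sum := by
    intro s
    induction s using Multiset.induction with
    | empty => exact ⟨by simp, by simp [Polynomial.coeff_one]⟩
    | cons z s ih =>
      obtain ⟨i0, i1⟩ := ih
      rw [Multiset.map_cons, Multiset.prod_cons, Multiset.sum_cons]
      set Q := (s.map fun z => 1 - C z * X).prod
      constructor
      · rw [mul_coeff_zero, i0]
        simp
      · have h1 : (1 - C z * X) * Q = Q - C z * (X * Q) := by ring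
        rw [h1, coeff_sub, coeff_C_mul, show (1 : ℕ) = 0 + 1 from rfl, coeff_X_mul, i0]
        rw [show (0 + 1 : ℕ) = 1 from rfl, i1]
        ring
  have h1 := (key (p.roots.map fun r => 1 / r)).2
  rw [← hp] at h1
  rw [h1, neg_neg]

end EXP

/-- EXP: the first order expansion. -/
theorem t_EXP (d : ℕ) (P : ℕ → ℚ[X]) (hP : Weil d P) :
    Exp1 d (Rf d P) (fun l => (((P (l : ℕ)).coeff 1 : ℚ) : ℂ)) := by
  refine ⟨2 ^ (2 * d), fun l t ht => ?_⟩
  have hlp : (l : ℕ).Prime := l.2
  obtain ⟨h2, h3, h4⟩ := hP l hlp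
  have hl0 : (0 : ℝ) < (l : ℕ) := by exact_mod_cast hlp.pos
  have hl1 : (1 : ℝ) ≤ (l : ℕ) := by exact_mod_cast hlp.one_le
  set δ : ℝ := 1 / Real.sqrt (l : ℕ) with hδ
  have hsq : 0 < Real.sqrt (l : ℕ) := Real.sqrt_pos.2 hl0
  have hδ0 : 0 ≤ δ := by positivity
  have hδ1 : δ ≤ 1 := by
    rw [hδ, div_le_one hsq]
    exact Real.one_le_sqrt.2 hl1
  have hδ2 : δ ^ 2 = 1 / (l : ℕ) := by
    rw [hδ, div_pow, one_pow, Real.sq_sqrt hl0.le]
  set p : ℂ[X] := (P l).map (algebraMap ℚ ℂ) with hp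
  have hp0 : p.coeff 0 = 1 := by rw [hp, coeff_map, h2, map_one]
  have hp1 : p.coeff 1 = (((P (l : ℕ)).coeff 1 : ℚ) : ℂ) := by
    rw [hp, coeff_map]
    rfl
  have hev : ∀ x : ℂ, aeval x (P l) = p.eval x := fun x => by
    rw [hp, eval_map, aeval_def]
  set x : ℂ := t * (((l : ℕ) : ℂ))⁻¹ with hx
  have hxn : ‖x‖ = 1 / (l : ℕ) := by
    rw [hx, norm_mul, ht, one_mul, norm_inv, Complex.norm_natCast, one_div]
  obtain ⟨e1, e2⟩ := LIM.eval_eq hp0 x
  have hz : ∀ z ∈ p.roots.map fun r => x / r, ‖z‖ ≤ δ := by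
    intro z hz
    obtain ⟨r, hr, rfl⟩ := Multiset.mem_map.1 hz
    have h5 : aeval r (P l) = 0 := by
      rw [hev]
      exact (mem_roots'.1 hr).2
    have h6 := h4 r h5
    have hr0 : 0 < ‖r‖ := norm_pos_iff.2 (e2 r hr)
    rw [norm_div, hxn, div_le_iff₀ hr0, hδ]
    have h7 : (1 : ℝ) / (l : ℕ) = 1 / Real.sqrt (l : ℕ) * (1 / Real.sqrt (l : ℕ)) := by
      rw [div_mul_div_comm, one_mul, Real.mul_self_sqrt hl0.le]
    rw [h7]
    refine mul_le_mul_of_nonneg_left ?_ (by positivity)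
    rw [div_le_iff₀ hsq]
    linarith
  have e3 := EXP.prod_bound2 hδ0 (p.roots.map fun r => x / r) hz
  rw [Multiset.map_map, Multiset.card_map] at e3
  have hsum : (p.roots.map fun r => x / r).sum = -(p.coeff 1 * x) := by
    have h5 : (p.roots.map fun r => x / r).sum = x * (p.roots.map fun r => 1 / r).sum := by
      rw [← Multiset.sum_map_mul_left]
      refine congrArg Multiset.sum (Multiset.map_congr rfl fun r _ => ?_)
      ring
    rw [h5, EXP.coeff_one hp0]
    ring
  have e4 : ‖p.eval x - 1 - p.coeff 1 * x‖ ≤ 2 ^ (2 * d) / (l : ℕ) := by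
    have h5 : p.eval x - 1 - p.coeff 1 * x = (p.roots.map fun r => 1 - x / r).prod - 1 +
        (p.roots.map fun r => x / r).sum := by
      rw [hsum, ← e1]
      ring
    rw [h5]
    refine e3.trans ((EXP.pow_bound hδ0 hδ1 _).trans ?_)
    rw [hδ2, mul_one_div]
    refine div_le_div_of_nonneg_right ?_ hl0.le
    refine pow_le_pow_right₀ (by norm_num) ?_
    exact (p.card_roots').trans ((natDegree_map_le).trans h3)
  have e6 : Rf d P l t - (-1) ^ d * (t⁻¹) ^ d *
      (1 + (((P (l : ℕ)).coeff 1 : ℚ) : ℂ) * t / ((l : ℕ) : ℂ)) =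
      (-1) ^ d * (t⁻¹) ^ d * (p.eval x - 1 - p.coeff 1 * x) := by
    unfold Rf
    rw [hev, hp1, hx]
    ring
  rw [e6, norm_mul, norm_mul, norm_pow, norm_neg, norm_one, one_pow, one_mul, norm_pow, norm_inv,
    ht, inv_one, one_pow, one_mul]
  exact e4

end Pool.DPC
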