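import Pool.Agent.H29.DPT.All
import Pool.Agent.H29.DPV.Exp
import Pool.Agent.H29.DPV.Sem

/-!
# DPV: the trace criterion for all exponents
-/

set_option autoImplicit false

namespace Pool.DPC

open Polynomial Complex

theorem dpv_cor : CORVStmt :=
  t_CORV (t_IDXT t_SUP) t_QSM (t_MIDT t_SUP t_evp) t_DIRT t_aux (t_ORTT t_evp) t_evp
    (t_BS1 t_SUP t_evp t_DIRT t_aux) (t_BS2 t_SUP t_evp t_DIRT t_aux) t_SUP

/-- The trace criterion for all exponents. -/
theorem dpv_all (n d : ℕ) (hn1 : 1 < n) (Om : ℝ) (P : ℕ → ℚ[X]) (U : Set ℂ)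
    (L : (f : ℕ) → DirichletCharacter ℂ f → ℂ → ℂ) (hW : Weil d P) (hU : Region U)
    (hHL : HL n P U L) (S : Set ℕ)
    (hS : ∀ (T : ℚ) (M a : ℕ), 0 < M → a.Coprime M →
      ∃ p ∈ S, p.Prime ∧ p ≡ a [MOD M] ∧ T < |(P p).coeff 1|)
    (k : IntermediateField ℚ ℂ) : AllEq k n d Om L ↔ TraceT S k n d Om L := by
  classical
  have hn : 0 < n := by omega
  set c : Nat.Primes → ℂ := fun l => (((P (l : ℕ)).coeff 1 : ℚ) : ℂ) with hc
  have hRich : RichC S c := by
    intro T M a hM ha B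
    obtain ⟨T', hT'⟩ := exists_rat_gt T
    obtain ⟨p, hpS, hp, hpa, hpT⟩ := hS (max T' (∑ i ∈ Finset.range (B + 1), |(P i).coeff 1|)) M a
      hM ha
    refine ⟨p, ⟨hpS, hp, ?_⟩, ?_, hp, hpa⟩
    · have h1 : T' < |(P p).coeff 1| := (le_max_left _ _).trans_lt hpT
      have h2 : ‖c ⟨p, hp⟩‖ = ((|(P p).coeff 1| : ℚ) : ℝ) := by
        rw [hc]
        simp only [Complex.norm_ratCast]
        push_cast
        rfl
      rw [h2]
      exact hT'.trans (by exact_mod_cast h1)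
    · by_contra hlt
      push Not at hlt
      have h1 : |(P p).coeff 1| ≤ ∑ i ∈ Finset.range (B + 1), |(P i).coeff 1| :=
        Finset.single_le_sum (f := fun i => |(P i).coeff 1|) (fun _ _ => abs_nonneg _)
          (Finset.mem_range.2 (by omega))
      exact absurd hpT (not_lt.2 (h1.trans (le_max_right _ _)))
  have hVCR : VCRStmt := t_vcr (t_val t_td1 t_td3 t_GSM t_lfp)
  obtain ⟨hmul, hone, -, heven⟩ := t_td1
  obtain ⟨hinj, hsurj⟩ := t_td2
  obtain ⟨-, -, hsq, -⟩ := t_td3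
  obtain ⟨-, -, hspow, -, -, -, htpow, -, -⟩ := t_SUP
  have hpow : ∀ (C : Finset Nat.Primes) (φ : Ch) (i : ℕ), toDC C (φ ^ i) = toDC C φ ^ i := by
    intro C φ i
    induction i with
    | zero => rw [pow_zero, pow_zero, hone]
    | succ i ih => rw [pow_succ, pow_succ, hmul, ih]
  constructor
  · intro h f Y hY _ _
    exact t_BAK29 t_gal k n f _ Y hn hY.sqf.ne_zero hY.exp (h f Y hY)
  · intro h f Y hY psi hpsi
    obtain ⟨C, rfl⟩ := hsq f hY.sqf
    obtain ⟨φ, hφC, rfl⟩ := hsurj C psi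
    have hφ : Tame n φ := by
      refine ⟨C.finite_toSet.subset hφC, ?_, ?_⟩
      · apply hinj C (φ ^ n) 1 ((hspow φ n).trans hφC)
        · intro l hl
          exact absurd rfl hl
        · rw [hpow, hY.exp _ hpsi, hone]
      · exact (heven C φ hφC).1 (hY.even _ hpsi)
    refine t_FLD t_gal k n (cn C) _ _ hn (hY.exp _ hpsi) fun g s hg π => ?_
    have h1 := t_SEMV dpv_cor (t_grf t_evp t_SUP) t_SUP S k n d P (V0 d Om L) c hRich hn1
      (t_LIM d P hW) (t_EXP d P hW)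
      (t_BRGT t_td1 t_td2 t_td3 hVCR t_SUP S k n d Om P U L hn hW hU hHL h) g s hg π φ hφ
    have h2 := t_LVL (t_grf t_evp t_SUP) k n d P (V0 d Om L) hn g s hg π φ hφ h1
      (C : Set Nat.Primes) C.finite_toSet
    rw [← hVCR n d Om P U L hW hU hHL C φ hφ hφC,
      ← hVCR n d Om P U L hW hU hHL C (φ ^ s) (htpow n s φ hφ) ((hspow φ s).trans hφC)] at h2
    unfold Vc at h2
    rw [hpow] at h2
    exact h2

end Pool.DPC
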