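import Pool.Agent.H29.DPV.Lmz
import Pool.Agent.H29.DPT.MID
import Pool.Agent.H29.DPU.Stc
import Pool.Agent.H26.DPC.STB

/-!
# DPV: the main identity with two auxiliary primes
-/

set_option autoImplicit false

namespace Pool.DPC

open Polynomial Complex

/-- one auxiliary prime with its character, outside `C`, in the class `u` -/
structure Ax (S : Set ℕ) (n : ℕ) (q : Nat.Primes) (C : Set Nat.Primes) (u : Un)
    (p : Nat.Primes) (χ : Ch) : Prop where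
  mem : (p : ℕ) ∈ S
  mod : (p : ℕ) % (4 * (q : ℕ)) = 1
  out : p ∉ C
  ev : ∀ φ : Ch, sup φ ⊆ C → Pool.DPC.ev φ (p : ℕ) = pair φ u
  tame : Tame n χ
  sup : Pool.DPC.sup χ = {p}
  ord : orderOf χ = (q : ℕ)

theorem ax_exists (hD : DIRTStmt) (hA : AUXStmt) {S : Set ℕ} (hS : Rich S) {C : Set Nat.Primes}
    (hC : C.Finite) {u : Un} {q : Nat.Primes} (hu : u q = 1) {n : ℕ} (hq : (q : ℕ) ∣ n) (B : ℕ) :
    ∃ (p : Nat.Primes) (χ : Ch), B < (p : ℕ) ∧ Ax S n q C u p χ := by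
  obtain ⟨p, χ, h1, h2, h3, h4, h5, h6, h7, h8⟩ := aux_prime hD hA hS hC hu hq B
  exact ⟨p, χ, h2, h1, h3, h4, h5, h6, h7, h8⟩

theorem pair_inv (hE : EVPStmt) {φ : Ch} (hf : (Pool.DPC.sup φ).Finite) (u : Un) :
    pair φ u⁻¹ = (pair φ u)⁻¹ := by
  have h1 : pair φ (u⁻¹ * u) = pair φ u⁻¹ * pair φ u := (hE.2.2.2.1 φ φ u⁻¹ u hf hf).2.1
  have h2 : pair φ (u⁻¹ * u) = 1 := by
    rw [inv_mul_cancel]
    unfold pair
    rw [← finprod_one (α := Nat.Primes) (M := ℂ)]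
    refine finprod_congr fun l => ?_
    simp
  rw [h2] at h1
  exact eq_inv_of_mul_eq_one_left h1.symm

/-- the product of two auxiliary characters -/
theorem ax_two (hSUP : SUPStmt) {S : Set ℕ} {n : ℕ} {q : Nat.Primes} {C : Set Nat.Primes}
    {u v : Un} {p p' : Nat.Primes} {χ χ' : Ch} (h : Ax S n q C u p χ)
    (h' : Ax S n q (C ∪ {p}) v p' χ') :
    p ≠ p' ∧ Tame n (χ * χ') ∧ sup (χ * χ') = {p, p'} ∧ orderOf (χ * χ') = (q : ℕ) ∧
      Disjoint C (sup (χ * χ')) ∧ Hit S (sup (χ * χ')) := by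
  obtain ⟨-, sdis, -, -, -, tmul, -, -, -⟩ := hSUP
  have hp : p ≠ p' := fun he => h'.out (Or.inr he.symm)
  have hdis : Disjoint (sup χ) (sup χ') := by
    rw [h.sup, h'.sup]
    exact Set.disjoint_singleton.2 hp
  have hsχ : sup (χ * χ') = {p, p'} := by
    rw [sdis _ _ hdis, h.sup, h'.sup]
    rfl
  have hχ1 : χ ^ (q : ℕ) = 1 := by rw [← h.ord]; exact pow_orderOf_eq_one _
  have hχ2 : χ' ^ (q : ℕ) = 1 := by rw [← h'.ord]; exact pow_orderOf_eq_one _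
  have : Fact (q : ℕ).Prime := ⟨q.2⟩
  refine ⟨hp, tmul _ _ _ h.tame h'.tame, hsχ, ?_, ?_, p, by rw [hsχ]; exact Or.inl rfl, h.mem⟩
  · refine orderOf_eq_prime (by rw [mul_pow, hχ1, hχ2, one_mul]) fun he => ?_
    have : p ∈ sup (χ * χ') := by rw [hsχ]; exact Or.inl rfl
    rw [he] at this
    exact this rfl
  · rw [hsχ, Set.disjoint_right]
    rintro l (rfl | rfl)
    · exact h.out
    · exact fun hl => h'.out (Or.inl hl)

/-- MIDV -/
theorem t_MIDV (hMID : MIDTStmt) (hEVP : EVPStmt) (hSUP : SUPStmt) {S : Set ℕ} {n : ℕ}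
    {W : Ch → ℂ} {R : Nat.Primes → ℂ → ℂ} (hn : 0 < n) (h1 : Eq1T S n W R) (h2 : Eq2T S n W R)
    {φ : Ch} (hφ : Tame n φ) {q : Nat.Primes} (hqm : (q : ℕ) ∣ orderOf φ)
    (hIH : IH n W (orderOf φ)) {C : Set Nat.Primes} (hsub : sup φ ⊆ C) {u : Un}
    {p p' : Nat.Primes} {χ χ' : Ch} (h : Ax S n q C u p χ) (h' : Ax S n q (C ∪ {p}) u⁻¹ p' χ') :
    ∑ i ∈ un (orderOf φ), W (φ ^ i) * (R p (pair φ u ^ i) * R p' ((pair φ u)⁻¹ ^ i)) +
      ∑ i ∈ (Finset.range (orderOf φ)).filter (fun i => (q : ℕ) ∣ i),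
        ∑ b ∈ Finset.Ico 1 (q : ℕ), wl W R (sup φ ∪ sup (χ * χ')) (φ ^ i * (χ * χ') ^ b) = 0 := by
  obtain ⟨hp, ht, hs, ho, hd, hit⟩ := ax_two hSUP h h'
  have h3 := hMID S n W R hn h1 h2 φ (χ * χ') q hφ ht (hd.mono_left hsub) hit q.2 ho hqm hIH
  rw [← h3]
  congr 1
  refine Finset.sum_congr rfl fun i _ => ?_
  rw [hs, STB.finprod_pair hp, h.ev φ hsub, h'.ev φ (hsub.trans Set.subset_union_left),
    pair_inv hEVP hφ.fin]

end Pool.DPC
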