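import Pool.Agent.H29.DPV.Stc
import Pool.Agent.H29.DPC.STA

/-!
# DPV: characters with two primes of ramification index `q`, all exponents
-/

set_option autoImplicit false

namespace Pool.DPC

open Polynomial Complex

/-- The companion character. -/
theorem two_fam (hEVP : EVPStmt) (hSUP : SUPStmt) {n : ℕ} (hn : 0 < n) {φ : Ch}
    {q : Nat.Primes} (hφ : Tame n φ) (hq2 : (q : ℕ) ≠ 2) (hqm : (q : ℕ) ∣ orderOf φ)
    (hq1 : φ q ^ 2 = 1) (hTwo : Two (q : ℕ) φ) :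
    ∃ φ' : Ch, Tame n φ' ∧ sup φ' = sup φ ∧ orderOf φ' = orderOf φ ∧
      (∀ i : ℕ, (q : ℕ) ∣ i → φ' ^ i = φ ^ i) ∧
      ∃ (v : Un) (ξ : ℂ), v q = 1 ∧ pair φ v = ξ⁻¹ ∧ pair φ' v = 1 ∧ orderOf ξ = (q : ℕ) := by
  obtain ⟨-, -, -, -, -, htmul, htpow, htord, -⟩ := hSUP
  obtain ⟨-, -, -, hpair, hpn⟩ := hEVP
  obtain ⟨l₁, l₂, hl12, hφ1, hφ2, hφ1q, hφ2q⟩ := hTwo
  have hq : (q : ℕ).Prime := q.2
  have hqfact : Fact (q : ℕ).Prime := ⟨hq⟩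
  set m := orderOf φ with hm
  have hm0 : 0 < m := (htord n φ hn hφ).1
  have hmn : m ∣ n := (htord n φ hn hφ).2
  have hqn : (q : ℕ) ∣ n := hqm.trans hmn
  have hl1q : l₁ ≠ q := by
    rintro rfl
    have h3 := STA.eq_one_of_two (k := 1) hq hq2 hφ1q (by rw [mul_one]; exact hq1)
    rw [pow_one] at h3
    exact hφ1 h3
  have hl2q : l₂ ≠ q := by
    rintro rfl
    have h3 := STA.eq_one_of_two (k := 1) hq hq2 hφ2q (by rw [mul_one]; exact hq1)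
    rw [pow_one] at h3
    exact hφ2 h3
  set ρ := STA.comp φ l₁ with hρ
  have hρq : ρ ^ (q : ℕ) = 1 := by
    funext l
    rw [Pi.pow_apply, Pi.one_apply]
    by_cases hl : l = l₁
    · subst hl
      rw [hρ, STA.comp_same, hφ1q]
    · rw [hρ, STA.comp_ne φ hl, one_pow]
  have hρdvd : ∀ k, (q : ℕ) ∣ k → ρ ^ k = 1 := by
    rintro k ⟨c, rfl⟩
    rw [pow_mul, hρq, one_pow]
  have hρt : Tame n ρ := ⟨by rw [hρ, STA.sup_comp φ hφ1]; exact Set.finite_singleton _,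
    hρdvd n hqn, STA.even_comp φ hq hq2 hφ1q⟩
  set φ' := φ * ρ with hφ'
  have hφt : Tame n φ' := htmul n φ ρ hφ hρt
  have hφ'1 : φ' l₁ = φ l₁ ^ 2 := by
    rw [hφ', Pi.mul_apply, hρ, STA.comp_same, sq]
  have hφ'l : ∀ l, l ≠ l₁ → φ' l = φ l := by
    intro l hl
    rw [hφ', Pi.mul_apply, hρ, STA.comp_ne φ hl, mul_one]
  have hsup : sup φ' = sup φ := by
    ext l
    simp only [sup, Set.mem_ofPred_eq]
    by_cases hl : l = l₁
    · subst hl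
      rw [hφ'1]
      constructor
      · intro _
        exact hφ1
      · intro _ h3
        have h4 := STA.eq_one_of_two (k := 1) hq hq2 hφ1q (by rw [mul_one]; exact h3)
        rw [pow_one] at h4
        exact hφ1 h4
    · rw [hφ'l l hl]
  have hord : orderOf φ' = m := by
    apply Nat.dvd_antisymm
    · apply orderOf_dvd_of_pow_eq_one
      rw [hφ', mul_pow, hρdvd m hqm, mul_one, hm, pow_orderOf_eq_one]
    · apply orderOf_dvd_of_pow_eq_one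
      have h3 := pow_orderOf_eq_one φ'
      funext l
      have h4 : φ' l ^ orderOf φ' = 1 := congrFun h3 l
      rw [Pi.pow_apply, Pi.one_apply]
      by_cases hl : l = l₁
      · subst hl
        rw [hφ'1, ← pow_mul] at h4
        exact STA.eq_one_of_two hq hq2 hφ1q h4
      · rwa [hφ'l l hl] at h4
  obtain ⟨a, ha⟩ := MulChar.ne_one_iff.1 hφ1
  obtain ⟨b0, hb0⟩ := MulChar.ne_one_iff.1 hφ2
  set ξ := φ l₁ (a : ZMod (l₁ : ℕ)) with hξ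
  set η := φ l₂ (b0 : ZMod (l₂ : ℕ)) with hη
  have hξq : ξ ^ (q : ℕ) = 1 := by
    have h4 : (φ l₁ ^ (q : ℕ)) (a : ZMod (l₁ : ℕ)) = ξ ^ (q : ℕ) :=
      MulChar.pow_apply' _ hq.ne_zero _
    rw [← h4, hφ1q, MulChar.one_apply_coe]
  have hηq : η ^ (q : ℕ) = 1 := by
    have h4 : (φ l₂ ^ (q : ℕ)) (b0 : ZMod (l₂ : ℕ)) = η ^ (q : ℕ) :=
      MulChar.pow_apply' _ hq.ne_zero _
    rw [← h4, hφ2q, MulChar.one_apply_coe]
  have hξ0 : ξ ≠ 0 := by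
    intro h
    rw [h, zero_pow hq.ne_zero] at hξq
    exact zero_ne_one hξq
  have hηp : IsPrimitiveRoot η (q : ℕ) := by
    have h3 : orderOf η = (q : ℕ) := orderOf_eq_prime hηq hb0
    rw [← h3]
    exact IsPrimitiveRoot.orderOf η
  have : NeZero (q : ℕ) := ⟨hq.ne_zero⟩
  obtain ⟨j, -, hj⟩ := hηp.eq_pow_of_pow_eq_one (ξ := (ξ⁻¹) ^ 2) (by
    rw [← pow_mul, mul_comm 2, pow_mul, inv_pow, hξq, inv_one, one_pow])
  set v : (l : Nat.Primes) → (ZMod (l : ℕ))ˣ := Pi.mulSingle l₁ a * Pi.mulSingle l₂ (b0 ^ j)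
    with hv
  have hvq : v q = 1 := by
    rw [hv, Pi.mul_apply, Pi.mulSingle_eq_of_ne hl1q.symm, Pi.mulSingle_eq_of_ne hl2q.symm,
      mul_one]
  have hpv : pair φ v = ξ * (ξ⁻¹) ^ 2 := by
    rw [hv, (hpair φ φ _ _ hφ.fin hφ.fin).2.1, STA.pair_single, STA.pair_single,
      Units.val_pow_eq_pow_val, map_pow, ← hη, hj]
  have hρv : pair ρ v = ξ := by
    rw [hv, (hpair ρ ρ _ _ hρt.fin hρt.fin).2.1, STA.pair_single, STA.pair_single, hρ,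
      STA.comp_same, STA.comp_ne φ hl12.symm, MulChar.one_apply_coe, mul_one]
  have hφ'v : pair φ' v = 1 := by
    rw [hφ', (hpair φ ρ v v hφ.fin hρt.fin).1, hpv, hρv]
    field_simp
  refine ⟨φ', hφt, hsup, hord, ?_, v, ξ, hvq, ?_, hφ'v, orderOf_eq_prime hξq ha⟩
  · intro i hi
    rw [hφ', mul_pow, hρdvd i hi, mul_one]
  · rw [hpv]
    field_simp

theorem t_STAV (hMID : MIDTStmt) (hDIR : DIRTStmt) (hAUX : AUXStmt) (hORT : ORTTStmt)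
    (hEVP : EVPStmt) (hSUP : SUPStmt) {S : Set ℕ} {n d : ℕ} {W : Ch → ℂ}
    {R : Nat.Primes → ℂ → ℂ} {c : Nat.Primes → ℂ} (hS : RichC S c) (hn : 0 < n) (hR : Lim d R)
    (hX : Exp1 d R c) (hE1 : Eq1T S n W R) (hE2 : Eq2T S n W R) (φ : Ch) (q : Nat.Primes)
    (hφ : Tame n φ) (hq2 : (q : ℕ) ≠ 2) (hqm : (q : ℕ) ∣ orderOf φ) (hφq : φ q ^ 2 = 1)
    (hIH : IH n W (orderOf φ)) (hTwo : Two (q : ℕ) φ) : W φ = 0 := by
  obtain ⟨φ', hφ', hsup, hord, hpow, v, ξ, hv, hφv, hφ'v, hξ⟩ :=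
    two_fam hEVP hSUP hn hφ hq2 hqm hφq hTwo
  have hm0 : 0 < orderOf φ := (hSUP.2.2.2.2.2.2.2.1 n φ hn hφ).1
  have hmn : orderOf φ ∣ n := (hSUP.2.2.2.2.2.2.2.1 n φ hn hφ).2
  have hqp : (q : ℕ).Prime := q.2
  have hm1 : 1 < orderOf φ := lt_of_lt_of_le hqp.one_lt (Nat.le_of_dvd hm0 hqm)
  have hcmp : ∀ u : Un, u q = 1 → ∑ i ∈ un (orderOf φ), W (φ ^ i) * pair φ u ^ i =
      ∑ i ∈ un (orderOf φ), W (φ' ^ i) * pair φ' u ^ i := by
    intro u hu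
    refine t_lmz (m := orderOf φ) hR hX (w := fun i => W (φ ^ i)) (w' := fun i => W (φ' ^ i))
      (hEVP.2.2.2.2 φ u n hφ.fin hn hφ.exp).2 (hEVP.2.2.2.2 φ' u n hφ'.fin hn hφ'.exp).2
      fun T B => ?_
    obtain ⟨p, χ, hpB, hp⟩ := ax_exists hDIR hAUX (hS T) hφ.fin hu (hqm.trans hmn) B
    obtain ⟨⟨hpS, hpr, hpT⟩⟩ : Nonempty ((p : ℕ) ∈ S ∧ ∃ h : (p : ℕ).Prime, T < ‖c ⟨p, h⟩‖) :=
      ⟨hp.mem⟩
    refine ⟨p, hpB, hpT, fun B' => ?_⟩
    have hp0 : Ax S n q (sup φ) u p χ := ⟨hpS, hp.mod, hp.out, hp.ev, hp.tame, hp.sup, hp.ord⟩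
    obtain ⟨p', χ', hpB', hp'⟩ := ax_exists hDIR hAUX hS.rich (C := sup φ ∪ {p})
      (hφ.fin.union (Set.finite_singleton _)) (u := u⁻¹)
      (by rw [Pi.inv_apply, hu, inv_one]) (hqm.trans hmn) B'
    refine ⟨p', hpB', ?_⟩
    have e1 := t_MIDV hMID hEVP hSUP hn hE1 hE2 hφ hqm hIH (le_refl _) hp0 hp'
    have e2 := t_MIDV hMID hEVP hSUP hn hE1 hE2 hφ' (by rw [hord]; exact hqm)
      (by rw [hord]; exact hIH) (C := sup φ) (by rw [hsup]) hp0 hp'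
    rw [hord, hsup] at e2
    have h3 : ∑ i ∈ (Finset.range (orderOf φ)).filter (fun i => (q : ℕ) ∣ i),
        ∑ b ∈ Finset.Ico 1 (q : ℕ), wl W R (sup φ ∪ sup (χ * χ')) (φ' ^ i * (χ * χ') ^ b) =
        ∑ i ∈ (Finset.range (orderOf φ)).filter (fun i => (q : ℕ) ∣ i),
        ∑ b ∈ Finset.Ico 1 (q : ℕ), wl W R (sup φ ∪ sup (χ * χ')) (φ ^ i * (χ * χ') ^ b) := by
      refine Finset.sum_congr rfl fun i hi => Finset.sum_congr rfl fun b _ => ?_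
      rw [Finset.mem_filter] at hi
      rw [hpow i hi.2]
    rw [h3] at e2
    exact add_right_cancel (e1.trans e2.symm)
  have hkey : ∀ u : Un, u q = 1 →
      ∑ i ∈ un (orderOf φ), (W (φ ^ i) * ((ξ⁻¹) ^ i - 1)) * pair φ u ^ i = 0 := by
    intro u hu
    have e1 := hcmp u hu
    have e2 := hcmp (u * v) (by rw [Pi.mul_apply, hu, hv, mul_one])
    rw [(hEVP.2.2.2.1 φ φ u v hφ.fin hφ.fin).2.1, (hEVP.2.2.2.1 φ' φ' u v hφ'.fin hφ'.fin).2.1,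
      hφ'v, mul_one, ← e1, hφv] at e2
    rw [← sub_eq_zero, ← Finset.sum_sub_distrib] at e2
    rw [← e2]
    refine Finset.sum_congr rfl fun i _ => ?_
    rw [mul_pow]
    ring
  have h1m : 1 ∈ un (orderOf φ) := by
    simp [un, hm1]
  have hfin := ort_one hORT hEVP (w := fun i => W (φ ^ i) * ((ξ⁻¹) ^ i - 1)) hφ.fin hm0 hφq hkey
    1 h1m
  simp only [pow_one] at hfin
  rcases mul_eq_zero.1 hfin with h3 | h3
  · exact h3
  · exfalso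
    have h4 : ξ = 1 := by
      rw [sub_eq_zero] at h3
      exact inv_eq_one.1 h3
    rw [h4, orderOf_one] at hξ
    exact hqp.one_lt.ne' hξ.symm

end Pool.DPC
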